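import Mathlib

/-!
# Counting sequences of pairs of vectors with prescribed bilinear products
-/

set_option autoImplicit false

namespace Pool.Agent.Y422.RW

open Finset Classical

/-- vectors of length `w` over the field with two elements -/
abbrev E (w : ℕ) := Fin w → ZMod 2

/-- The vectors orthogonal to `D`. -/
noncomputable def perp {w : ℕ} (D : Submodule (ZMod 2) (E w)) : Submodule (ZMod 2) (E w) :=
  D.dualAnnihilator.comap (dotProductEquiv (ZMod 2) (Fin w) : E w →ₗ[ZMod 2] _)

theorem mem_perp {w : ℕ} {D : Submodule (ZMod 2) (E w)} {y : E w} :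
    y ∈ perp D ↔ ∀ x ∈ D, y ⬝ᵥ x = 0 := by
  rw [perp, Submodule.mem_comap, Submodule.mem_dualAnnihilator]
  rfl

theorem finrank_perp {w : ℕ} (D : Submodule (ZMod 2) (E w)) :
    Module.finrank (ZMod 2) D + Module.finrank (ZMod 2) (perp D) = w := by
  have h1 := Subspace.finrank_add_finrank_dualAnnihilator_eq D
  have h2 := ((dotProductEquiv (ZMod 2) (Fin w)).ofSubmodule' D.dualAnnihilator).finrank_eq
  rw [← h2] at h1
  rw [show Module.finrank (ZMod 2) (E w) = w by simp] at h1
  exact h1

theorem card_sub {w : ℕ} (D : Submodule (ZMod 2) (E w)) :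
    (univ.filter (fun x : E w => x ∈ D)).card = 2 ^ Module.finrank (ZMod 2) D := by
  have h1 := Module.natCard_eq_pow_finrank (K := ZMod 2) (V := D)
  rw [Nat.card_zmod] at h1
  rw [← h1, Nat.card_eq_fintype_card, Fintype.card_subtype]

/-- Sequences of `k` pairs of vectors, all first components in `X`, such that the product of the
second component of an earlier pair and the first component of a later pair is `c`. -/
noncomputable def Pset (w k : ℕ) (c : ZMod 2) (X : Finset (E w)) : Finset (Fin k → E w × E w) :=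
  univ.filter (fun z => (∀ b, (z b).1 ∈ X) ∧ ∀ a b, a < b → (z a).2 ⬝ᵥ (z b).1 = c)

theorem mem_Pset {w k : ℕ} {c : ZMod 2} {X : Finset (E w)} {z : Fin k → E w × E w} :
    z ∈ Pset w k c X ↔ (∀ b, (z b).1 ∈ X) ∧ ∀ a b, a < b → (z a).2 ⬝ᵥ (z b).1 = c := by
  simp [Pset]

theorem Pset_mono {w k : ℕ} {c : ZMod 2} {X X' : Finset (E w)} (h : X ⊆ X') :
    Pset w k c X ⊆ Pset w k c X' := by
  intro z hz
  obtain ⟨h1, h2⟩ := mem_Pset.1 hz
  exact mem_Pset.2 ⟨fun b => h (h1 b), h2⟩

theorem Pset_succ (w k : ℕ) (c : ZMod 2) (X : Finset (E w)) :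
    (Pset w (k + 1) c X).card ≤
      X.card * ∑ y : E w, (Pset w k c (X.filter (fun x => y ⬝ᵥ x = c))).card := by
  rw [← Finset.card_sigma, ← card_product]
  apply card_le_card_of_injOn
    (fun z => ((z 0).1, (⟨(z 0).2, Fin.tail z⟩ : Σ _ : E w, Fin k → E w × E w)))
  · intro z hz
    obtain ⟨h1, h2⟩ := mem_Pset.1 (mem_coe.1 hz)
    refine mem_coe.2 (mem_product.2 ⟨h1 0, mem_sigma.2 ⟨mem_univ _, mem_Pset.2 ⟨?_, ?_⟩⟩⟩)
    · intro b
      refine mem_filter.2 ⟨h1 b.succ, ?_⟩
      exact h2 0 b.succ (Fin.succ_pos b)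
    · intro a b hab
      exact h2 a.succ b.succ (Fin.succ_lt_succ_iff.2 hab)
  · intro z _ z' _ h
    simp only [Prod.mk.injEq, Sigma.mk.injEq, heq_eq_eq] at h
    obtain ⟨h1, h2, h3⟩ := h
    rw [← Fin.cons_self_tail z, ← Fin.cons_self_tail z', h3, Prod.ext h1 h2]

/-- triangular numbers -/
def Tri : ℕ → ℕ
  | 0 => 0
  | d + 1 => Tri d + (d + 1)

theorem two_Tri (d : ℕ) : 2 * Tri d = d * (d + 1) := by
  induction d with
  | zero => rfl
  | succ d ih =>
    rw [Tri]
    linarith [ih, show (d + 1) * (d + 1 + 1) = d * (d + 1) + 2 * (d + 1) by ring]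

theorem card_coset {w : ℕ} (D : Submodule (ZMod 2) (E w)) (X : Finset (E w))
    (hX : ∀ x ∈ X, ∀ x' ∈ X, x - x' ∈ D) : X.card ≤ 2 ^ Module.finrank (ZMod 2) D := by
  rcases X.eq_empty_or_nonempty with rfl | ⟨x0, hx0⟩
  · simp
  rw [← card_sub D]
  apply card_le_card_of_injOn (fun x => x - x0)
  · intro x hx
    exact mem_coe.2 (mem_filter.2 ⟨mem_univ _, hX x hx x0 hx0⟩)
  · intro x _ x' _ h
    exact sub_left_injective h

theorem Tri_mono {a b : ℕ} (h : a ≤ b) : Tri a ≤ Tri b := by
  induction b with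
  | zero =>
    have : a = 0 := by omega
    rw [this]
  | succ b ih =>
    rcases Nat.lt_or_ge a (b + 1) with h1 | h1
    · have := ih (by omega)
      rw [Tri]
      omega
    · have : a = b + 1 := by omega
      rw [this]

theorem card_Pset (w k : ℕ) (c : ZMod 2) : ∀ (D : Submodule (ZMod 2) (E w)) (X : Finset (E w)),
    (∀ x ∈ X, ∀ x' ∈ X, x - x' ∈ D) →
    (Pset w k c X).card ≤ 2 ^ (k * (w + 1)) * 2 ^ Tri (Module.finrank (ZMod 2) D) := by
  induction k with
  | zero =>
    intro D X _
    have h1 : (Pset w 0 c X).card ≤ 1 := by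
      rw [card_le_one]
      intro a _ b _
      exact Subsingleton.elim _ _
    have h2 : 0 < 2 ^ Tri (Module.finrank (ZMod 2) D) := by positivity
    rw [zero_mul, pow_zero, one_mul]
    omega
  | succ k ih =>
    intro D X hX
    set d := Module.finrank (ZMod 2) D with hd
    set B := 2 ^ (k * (w + 1)) with hB
    have hsum : ∑ y : E w, (Pset w k c (X.filter (fun x => y ⬝ᵥ x = c))).card ≤
        (univ.filter (fun y : E w => y ∈ perp D)).card * (B * 2 ^ Tri d) +
        (univ.filter (fun y : E w => y ∉ perp D)).card * (B * 2 ^ Tri (d - 1)) := by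
      rw [← Finset.sum_filter_add_sum_filter_not univ (fun y : E w => y ∈ perp D)]
      apply add_le_add
      · rw [← smul_eq_mul]
        apply Finset.sum_le_card_nsmul
        intro y _
        refine (card_le_card (Pset_mono (filter_subset _ X))).trans ?_
        exact ih D X hX
      · rw [← smul_eq_mul]
        apply Finset.sum_le_card_nsmul
        intro y hy
        have hy' := (mem_filter.1 hy).2
        set D' : Submodule (ZMod 2) (E w) :=
          D ⊓ LinearMap.ker (dotProductEquiv (ZMod 2) (Fin w) y) with hD'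
        have hlt : D' < D := by
          refine lt_of_le_of_ne inf_le_left ?_
          intro he
          apply hy'
          rw [mem_perp]
          intro x hx
          rw [← he] at hx
          exact (Submodule.mem_inf.1 hx).2
        have hfr : Module.finrank (ZMod 2) D' ≤ d - 1 := by
          have := Submodule.finrank_lt_finrank_of_lt hlt
          omega
        refine (ih D' (X.filter (fun x => y ⬝ᵥ x = c)) ?_).trans ?_
        · intro x hx x' hx'
          obtain ⟨h1, h2⟩ := mem_filter.1 hx
          obtain ⟨h3, h4⟩ := mem_filter.1 hx'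
          refine Submodule.mem_inf.2 ⟨hX x h1 x' h3, ?_⟩
          show y ⬝ᵥ (x - x') = 0
          rw [dotProduct_sub, h2, h4, sub_self]
        · exact Nat.mul_le_mul_left _ (Nat.pow_le_pow_right (by norm_num) (Tri_mono hfr))
    have hXc := card_coset D X hX
    rw [← hd] at hXc
    have hp := card_sub (perp D)
    have hfin := finrank_perp D
    rw [← hd] at hfin
    refine (Pset_succ w k c X).trans ((Nat.mul_le_mul hXc hsum).trans ?_)
    rw [hp]
    have hall : (univ.filter (fun y : E w => y ∉ perp D)).card ≤ 2 ^ w := by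
      refine (card_le_card (filter_subset _ _)).trans ?_
      rw [card_univ]
      simp [ZMod.card]
    have e1 : 2 ^ d * 2 ^ Module.finrank (ZMod 2) (perp D) = 2 ^ w := by
      rw [← pow_add, hfin]
    rcases Nat.eq_zero_or_pos d with h0 | h0
    · have hempty : (univ.filter (fun y : E w => y ∉ perp D)) = ∅ := by
        rw [filter_eq_empty_iff]
        intro y _
        rw [not_not, mem_perp]
        intro x hx
        have hbot : D = ⊥ := Submodule.finrank_eq_zero.1 (by rw [← hd, h0])
        rw [hbot, Submodule.mem_bot] at hx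
        rw [hx, dotProduct_zero]
      rw [hempty, card_empty, zero_mul, add_zero, ← mul_assoc, e1]
      have : 2 ^ ((k + 1) * (w + 1)) = 2 * (2 ^ w * B) := by
        rw [hB]
        ring
      rw [this]
      nlinarith [Nat.zero_le (2 ^ w * B * 2 ^ Tri d)]
    · obtain ⟨e, he⟩ : ∃ e, d = e + 1 := ⟨d - 1, by omega⟩
      have e2 : 2 ^ Tri d = 2 ^ d * 2 ^ Tri (d - 1) := by
        rw [he, Nat.add_sub_cancel, Tri, ← pow_add]
        congr 1
        omega
      have e3 : 2 ^ ((k + 1) * (w + 1)) = 2 * (2 ^ w * B) := by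
        rw [hB]
        ring
      calc 2 ^ d * (2 ^ Module.finrank (ZMod 2) (perp D) * (B * 2 ^ Tri d) +
            (univ.filter (fun y : E w => y ∉ perp D)).card * (B * 2 ^ Tri (d - 1)))
          ≤ 2 ^ d * (2 ^ Module.finrank (ZMod 2) (perp D) * (B * 2 ^ Tri d) +
            2 ^ w * (B * 2 ^ Tri (d - 1))) := by
            apply Nat.mul_le_mul_left
            exact Nat.add_le_add_left (Nat.mul_le_mul_right _ hall) _
        _ = (2 ^ d * 2 ^ Module.finrank (ZMod 2) (perp D)) * (B * 2 ^ Tri d) +
            2 ^ w * (B * (2 ^ d * 2 ^ Tri (d - 1))) := by ring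
        _ = 2 ^ w * (B * 2 ^ Tri d) + 2 ^ w * (B * 2 ^ Tri d) := by rw [e1, ← e2]
        _ = 2 ^ ((k + 1) * (w + 1)) * 2 ^ Tri d := by rw [e3]; ring

theorem card_Pset_univ (w k : ℕ) (c : ZMod 2) :
    (Pset w k c univ).card ≤ 2 ^ (k * (w + 1)) * 2 ^ Tri w := by
  have h := card_Pset w k c ⊤ univ (by intros; trivial)
  rwa [finrank_top, show Module.finrank (ZMod 2) (E w) = w by simp] at h

/-- The sequences whose restriction along `φ` lies in `B`. -/
noncomputable def Rset {α : Type*} [Fintype α] {n k : ℕ} (φ : Fin k → Fin n)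
    (B : Finset (Fin k → α)) : Finset (Fin n → α) :=
  univ.filter (fun z : Fin n → α => z ∘ φ ∈ B)

theorem mem_Rset {α : Type*} [Fintype α] {n k : ℕ} {φ : Fin k → Fin n}
    {B : Finset (Fin k → α)} {z : Fin n → α} : z ∈ Rset φ B ↔ z ∘ φ ∈ B := by
  simp [Rset]

/-- Extension count: few sequences restrict along an injection to a small set. -/
theorem card_restrict {α : Type*} [Fintype α] (n k : ℕ) (φ : Fin k → Fin n)
    (hφ : Function.Injective φ) (B : Finset (Fin k → α)) :
    (Rset φ B).card * Fintype.card α ^ k ≤ B.card * Fintype.card α ^ n := by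
  have e1 : Fintype.card α ^ k = (univ : Finset (Fin k → α)).card := by
    rw [card_univ, Fintype.card_fun, Fintype.card_fin]
  have e2 : Fintype.card α ^ n = (univ : Finset (Fin n → α)).card := by
    rw [card_univ, Fintype.card_fun, Fintype.card_fin]
  rw [e1, e2, ← card_product, ← card_product]
  apply card_le_card_of_injOn (fun p : (Fin n → α) × (Fin k → α) =>
    (p.1 ∘ φ, fun i => if h : ∃ a, φ a = i then p.2 h.choose else p.1 i))
  · intro p hp
    obtain ⟨h1, -⟩ := mem_product.1 (mem_coe.1 hp)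
    have h3 : p.1 ∘ φ ∈ B := mem_Rset.1 h1
    exact mem_coe.2 (mem_product.2 ⟨h3, mem_univ _⟩)
  · intro p _ q _ h
    simp only [Prod.mk.injEq] at h
    obtain ⟨h1, h2⟩ := h
    refine Prod.ext ?_ ?_
    · funext i
      by_cases hi : ∃ a, φ a = i
      · obtain ⟨a, rfl⟩ := hi
        exact congrFun h1 a
      · have := congrFun h2 i
        simpa [hi] using this
    · funext a
      have h3 := congrFun h2 (φ a)
      have hex : ∃ b, φ b = φ a := ⟨a, rfl⟩
      have hch : hex.choose = a := hφ hex.choose_spec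
      simp only [dif_pos hex] at h3
      rwa [hch] at h3

/-- The union bound. -/
theorem union_bound {α ι : Type*} [Fintype α] [Fintype ι] [Nonempty α] (n k b : ℕ)
    (bad : ι → Finset (Fin k → α)) (hb : ∀ c, (bad c).card ≤ b)
    (h : Fintype.card ι * (n ^ k * b) < Fintype.card α ^ k) :
    ∃ z : Fin n → α, ∀ c, ∀ φ : Fin k → Fin n, Function.Injective φ → z ∘ φ ∉ bad c := by
  by_contra hcon
  push Not at hcon
  set Φ : Finset (Fin k → Fin n) := univ.filter (fun φ => Function.Injective φ) with hΦ
  have hcover : (univ : Finset (Fin n → α)) ⊆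
      (univ : Finset ι).biUnion (fun c => Φ.biUnion (fun φ => Rset φ (bad c))) := by
    intro z _
    obtain ⟨c, φ, hφ, hz⟩ := hcon z
    exact mem_biUnion.2 ⟨c, mem_univ _, mem_biUnion.2 ⟨φ, mem_filter.2 ⟨mem_univ _, hφ⟩,
      mem_Rset.2 hz⟩⟩
  have hone : ∀ c, ∀ φ ∈ Φ,
      (Rset φ (bad c)).card * Fintype.card α ^ k ≤ b * Fintype.card α ^ n := by
    intro c φ hφ
    refine (card_restrict n k φ (mem_filter.1 hφ).2 (bad c)).trans ?_
    exact Nat.mul_le_mul_right _ (hb c)
  have hφc : Φ.card ≤ n ^ k := by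
    refine (card_le_card (filter_subset _ _)).trans ?_
    rw [card_univ, Fintype.card_fun, Fintype.card_fin, Fintype.card_fin]
  have htot : Fintype.card α ^ n * Fintype.card α ^ k ≤
      Fintype.card ι * (n ^ k * (b * Fintype.card α ^ n)) := by
    calc Fintype.card α ^ n * Fintype.card α ^ k
        = (univ : Finset (Fin n → α)).card * Fintype.card α ^ k := by
          rw [card_univ, Fintype.card_fun, Fintype.card_fin]
      _ ≤ (∑ c : ι, ∑ φ ∈ Φ, (Rset φ (bad c)).card) * Fintype.card α ^ k := by
          apply Nat.mul_le_mul_right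
          refine (card_le_card hcover).trans (card_biUnion_le.trans ?_)
          exact Finset.sum_le_sum (fun c _ => card_biUnion_le)
      _ = ∑ c : ι, ∑ φ ∈ Φ, (Rset φ (bad c)).card * Fintype.card α ^ k := by
          rw [Finset.sum_mul]
          exact Finset.sum_congr rfl (fun c _ => Finset.sum_mul _ _ _)
      _ ≤ ∑ _c : ι, (n ^ k * (b * Fintype.card α ^ n)) := by
          refine Finset.sum_le_sum (fun c _ => ?_)
          refine (Finset.sum_le_card_nsmul _ _ _ (hone c)).trans ?_
          rw [smul_eq_mul]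
          exact Nat.mul_le_mul_right _ hφc
      _ = _ := by
          rw [Finset.sum_const, card_univ, smul_eq_mul]
  have hpos : 0 < Fintype.card α ^ n := by
    have : 0 < Fintype.card α := Fintype.card_pos
    positivity
  have h1 : Fintype.card α ^ k ≤ Fintype.card ι * (n ^ k * b) := by
    have h2 : Fintype.card α ^ n * Fintype.card α ^ k ≤
        Fintype.card α ^ n * (Fintype.card ι * (n ^ k * b)) := by
      refine htot.trans (le_of_eq ?_)
      ring
    exact Nat.le_of_mul_le_mul_left h2 hpos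
  omega

theorem card_EE (w : ℕ) : Fintype.card (E w × E w) = 2 ^ (2 * w) := by
  rw [Fintype.card_prod, Fintype.card_fun, Fintype.card_fin, ZMod.card]
  ring

/-- Existence of a sequence of pairs of vectors without long monochromatic subsequence. -/
theorem exists_seq (w m k : ℕ) (h : Tri w + 1 + k * (m + 1) < k * w) :
    ∃ z : Fin (2 ^ m) → E w × E w, ∀ c : ZMod 2, ∀ φ : Fin k → Fin (2 ^ m),
      Function.Injective φ → ¬ (∀ a b, a < b → (z (φ a)).2 ⬝ᵥ (z (φ b)).1 = c) := by
  obtain ⟨z, hz⟩ := union_bound (2 ^ m) k (2 ^ (k * (w + 1)) * 2 ^ Tri w)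
    (fun c : ZMod 2 => Pset w k c univ) (fun c => card_Pset_univ w k c) (by
      rw [card_EE, ZMod.card, ← pow_mul, ← pow_mul, ← pow_add, ← pow_add, ← pow_succ']
      apply Nat.pow_lt_pow_right (by norm_num)
      nlinarith)
  refine ⟨z, fun c φ hφ hh => hz c φ hφ ?_⟩
  exact mem_Pset.2 ⟨fun _ => mem_univ _, hh⟩

end Pool.Agent.Y422.RW
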