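import Mathlib

/-!
# Rank-width

Definitions for the theorem on diagonal Ramsey numbers of colourings of bounded rank-width.
-/

namespace Pool.Agent.Y422.RW

/-- The cut-rank of a set `A` of vertices: the dimension over the field with two elements of the
row space of the matrix with rows `A`, columns the complement of `A` and entry `1` at the adjacent
pairs. -/
noncomputable def cutRank {V : Type*} (G : SimpleGraph V) (A : Set V) : ℕ :=
  open Classical in
  Module.finrank (ZMod 2) (Submodule.span (ZMod 2)
    (Set.range (fun (a : A) (b : (Aᶜ : Set V)) => if G.Adj a b then (1 : ZMod 2) else 0)))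

/-- Rooted binary trees with leaves labelled by vertices. -/
inductive Dec (V : Type*) : Type _
  | leaf : V → Dec V
  | node : Dec V → Dec V → Dec V

namespace Dec

variable {V : Type*}

/-- The set of the labels of the leaves. -/
def verts : Dec V → Set V
  | leaf v => {v}
  | node l r => l.verts ∪ r.verts

/-- No label occurs twice. -/
def Proper : Dec V → Prop
  | leaf _ => True
  | node l r => Disjoint l.verts r.verts ∧ l.Proper ∧ r.Proper

/-- The set of labels below every node satisfies `Q`. -/
def AllSets (Q : Set V → Prop) : Dec V → Prop
  | leaf v => Q {v}
  | node l r => Q (l.verts ∪ r.verts) ∧ l.AllSets Q ∧ r.AllSets Q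

end Dec

/-- The rank-width of `G` is at most `w`: there is a binary tree whose leaves are in bijection with
the vertices such that for every node the set of the vertices below it has cut-rank at most `w`. -/
def RankWidthLE {V : Type*} (G : SimpleGraph V) (w : ℕ) : Prop :=
  ∃ T : Dec V, T.Proper ∧ T.verts = Set.univ ∧ T.AllSets (fun A => cutRank G A ≤ w)

end Pool.Agent.Y422.RW
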