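import Pool.Agent.Y422.RW.Defs
import Pool.Agent.Y422.RW.Count
import Pool.Agent.Y422.TW.Lower

/-!
# The lower bound for rank-width
-/

set_option autoImplicit false

namespace Pool.Agent.Y422.RW

open Finset Classical Pool.Agent.Y422.TW

attribute [-instance] instDecidableEqProd

variable {V W : Type*}

/-- Affine factorisation of the cut given by `A` through vectors of length `w`. -/
def AFac (G : SimpleGraph V) (w : ℕ) (A : Set V) : Prop :=
  ∃ (f g : V → E w) (h : V → ZMod 2), ∀ a ∈ A, ∀ b ∉ A,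
    (if G.Adj a b then (1 : ZMod 2) else 0) = f a ⬝ᵥ g b + h b

/-- The functions spanning the row space. -/
def gens {w : ℕ} (A : Set V) (g : V → E w) (h : V → ZMod 2) :
    Option (Fin w) → ((Aᶜ : Set V) → ZMod 2)
  | none => fun b => h b
  | some j => fun b => g b j

theorem cutRank_le [Finite V] (G : SimpleGraph V) (w : ℕ) (A : Set V) (hA : AFac G w A) :
    cutRank G A ≤ w + 1 := by
  obtain ⟨f, g, h, H⟩ := hA
  have hsub : Submodule.span (ZMod 2)
      (Set.range (fun (a : A) (b : (Aᶜ : Set V)) => if G.Adj a b then (1 : ZMod 2) else 0)) ≤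
      Submodule.span (ZMod 2) (Set.range (gens A g h)) := by
    rw [Submodule.span_le]
    rintro _ ⟨a, rfl⟩
    have e : (fun (b : (Aᶜ : Set V)) => if G.Adj a b then (1 : ZMod 2) else 0) =
        (∑ j : Fin w, f a j • gens A g h (some j)) + gens A g h none := by
      funext b
      rw [Pi.add_apply, Finset.sum_apply]
      have h1 := H a a.2 b b.2
      simp only [Pi.smul_apply, smul_eq_mul]
      exact h1
    show (fun (b : (Aᶜ : Set V)) => if G.Adj a b then (1 : ZMod 2) else 0) ∈ _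
    rw [e]
    refine Submodule.add_mem _ (Submodule.sum_mem _ (fun j _ => Submodule.smul_mem _ _ ?_)) ?_
    · exact Submodule.subset_span ⟨some j, rfl⟩
    · exact Submodule.subset_span ⟨none, rfl⟩
  have h1 := Submodule.finrank_mono hsub
  have h2 := finrank_range_le_card (R := ZMod 2) (gens A g h)
  rw [Fintype.card_option, Fintype.card_fin] at h2
  exact h1.trans h2

/-- The graph has a decomposition all of whose cuts have affine factorisations. -/
def Nice (G : SimpleGraph V) (w : ℕ) : Prop :=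
  ∃ T : Dec V, T.Proper ∧ T.verts = Set.univ ∧ T.AllSets (AFac G w)

theorem Dec.AllSets.imp {Q Q' : Set V → Prop} (h : ∀ A, Q A → Q' A) (T : Dec V)
    (hT : T.AllSets Q) : T.AllSets Q' := by
  induction T with
  | leaf v => exact h _ hT
  | node l r ihl ihr =>
    obtain ⟨h1, h2, h3⟩ := hT
    exact ⟨h _ h1, ihl h2, ihr h3⟩

theorem Nice.rankWidth [Finite V] {G : SimpleGraph V} {w : ℕ} (h : Nice G w) :
    RankWidthLE G (w + 1) := by
  obtain ⟨T, h1, h2, h3⟩ := h
  exact ⟨T, h1, h2, Dec.AllSets.imp (fun A hA => cutRank_le G w A hA) T h3⟩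

/-- relabelling -/
def Dec.map {U : Type*} (f : V → U) : Dec V → Dec U
  | Dec.leaf v => Dec.leaf (f v)
  | Dec.node l r => Dec.node (l.map f) (r.map f)

theorem Dec.map_verts {U : Type*} (f : V → U) (T : Dec V) : (T.map f).verts = f '' T.verts := by
  induction T with
  | leaf v => simp [Dec.map, Dec.verts]
  | node l r ihl ihr =>
    show (l.map f).verts ∪ (r.map f).verts = f '' (l.verts ∪ r.verts)
    rw [ihl, ihr, Set.image_union]

theorem Dec.map_proper {U : Type*} (f : V → U) (hf : Function.Injective f) (T : Dec V)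
    (hT : T.Proper) : (T.map f).Proper := by
  induction T with
  | leaf v => trivial
  | node l r ihl ihr =>
    obtain ⟨h1, h2, h3⟩ := hT
    refine ⟨?_, ihl h2, ihr h3⟩
    rw [Dec.map_verts, Dec.map_verts]
    exact (Set.disjoint_image_iff hf).2 h1

theorem Dec.map_all {U : Type*} (f : V → U) (Q : Set V → Prop) (Q' : Set U → Prop)
    (h : ∀ A, Q A → Q' (f '' A)) (T : Dec V) (hT : T.AllSets Q) : (T.map f).AllSets Q' := by
  induction T with
  | leaf v =>
    show Q' {f v}
    rw [← Set.image_singleton]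
    exact h _ hT
  | node l r ihl ihr =>
    obtain ⟨h1, h2, h3⟩ := hT
    refine ⟨?_, ihl h2, ihr h3⟩
    rw [Dec.map_verts, Dec.map_verts, ← Set.image_union]
    exact h _ h1

/-- the tree of the lexicographic product -/
def lexDec (S : Dec W) : Dec V → Dec (V × W)
  | Dec.leaf v => S.map (fun x => (v, x))
  | Dec.node l r => Dec.node (lexDec S l) (lexDec S r)

theorem lexDec_verts (S : Dec W) (hS : S.verts = Set.univ) (T : Dec V) :
    (lexDec S T).verts = {p | p.1 ∈ T.verts} := by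
  induction T with
  | leaf v =>
    show (S.map (fun x => (v, x))).verts = _
    rw [Dec.map_verts, hS]
    ext p
    simp only [Set.image_univ, Set.mem_range, Dec.verts, Set.mem_setOf_eq, Set.mem_singleton_iff]
    constructor
    · rintro ⟨y, rfl⟩
      rfl
    · rintro h
      exact ⟨p.2, by rw [← h]⟩
  | node l r ihl ihr =>
    show (lexDec S l).verts ∪ (lexDec S r).verts = _
    rw [ihl, ihr]
    rfl

theorem lexDec_proper (S : Dec W) (hS : S.verts = Set.univ) (hS' : S.Proper) (T : Dec V)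
    (hT : T.Proper) : (lexDec S T).Proper := by
  induction T with
  | leaf v =>
    refine Dec.map_proper _ ?_ S hS'
    intro x y h
    exact (Prod.ext_iff.1 h).2
  | node l r ihl ihr =>
    obtain ⟨h1, h2, h3⟩ := hT
    refine ⟨?_, ihl h2, ihr h3⟩
    rw [lexDec_verts S hS, lexDec_verts S hS, Set.disjoint_left]
    intro p hp hp'
    exact Set.disjoint_left.1 h1 hp hp'

theorem AFac.outer {G : SimpleGraph V} {w : ℕ} {A : Set V} (hA : AFac G w A)
    (H : SimpleGraph W) : AFac (lex G H) w {p | p.1 ∈ A} := by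
  obtain ⟨f, g, h, hfg⟩ := hA
  refine ⟨fun p => f p.1, fun p => g p.1, fun p => h p.1, ?_⟩
  intro a ha b hb
  rw [← hfg a.1 ha b.1 hb]
  have hne : a.1 ≠ b.1 := by
    intro he
    apply hb
    show b.1 ∈ A
    rw [← he]
    exact ha
  have hiff : (lex G H).Adj a b ↔ G.Adj a.1 b.1 := by
    show (G.Adj a.1 b.1 ∨ (a.1 = b.1 ∧ H.Adj a.2 b.2)) ↔ _
    tauto
  simp only [hiff]

theorem AFac.inner {H : SimpleGraph W} {w : ℕ} {B : Set W} (hB : AFac H w B)
    (G : SimpleGraph V) (v : V) : AFac (lex G H) w ((fun x => (v, x)) '' B) := by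
  obtain ⟨f, g, h, hfg⟩ := hB
  refine ⟨fun p => f p.2, fun p => if p.1 = v then g p.2 else 0,
    fun p => if p.1 = v then h p.2 else (if G.Adj v p.1 then (1 : ZMod 2) else 0), ?_⟩
  rintro _ ⟨x, hx, rfl⟩ b hb
  by_cases hbv : b.1 = v
  · have hb2 : b.2 ∉ B := by
      intro h2
      exact hb ⟨b.2, h2, by rw [← hbv]⟩
    have hiff : (lex G H).Adj (v, x) b ↔ H.Adj x b.2 := by
      show (G.Adj v b.1 ∨ (v = b.1 ∧ H.Adj x b.2)) ↔ _
      rw [hbv]
      constructor
      · rintro (h1 | ⟨-, h1⟩)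
        · exact absurd h1 (G.loopless.irrefl v)
        · exact h1
      · intro h1
        exact Or.inr ⟨rfl, h1⟩
    simp only [hiff, hbv, if_true]
    exact hfg x hx b.2 hb2
  · have hiff : (lex G H).Adj (v, x) b ↔ G.Adj v b.1 := by
      show (G.Adj v b.1 ∨ (v = b.1 ∧ H.Adj x b.2)) ↔ _
      constructor
      · rintro (h1 | ⟨h1, -⟩)
        · exact h1
        · exact absurd h1.symm hbv
      · intro h1
        exact Or.inl h1
    simp only [hiff, hbv, if_false, dotProduct_zero, zero_add]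

theorem lexDec_all (G : SimpleGraph V) (H : SimpleGraph W) (w : ℕ) (S : Dec W)
    (hS : S.verts = Set.univ) (hS' : S.AllSets (AFac H w)) (T : Dec V)
    (hT : T.AllSets (AFac G w)) : (lexDec S T).AllSets (AFac (lex G H) w) := by
  induction T with
  | leaf v => exact Dec.map_all _ _ _ (fun A hA => AFac.inner hA G v) S hS'
  | node l r ihl ihr =>
    obtain ⟨h1, h2, h3⟩ := hT
    refine ⟨?_, ihl h2, ihr h3⟩
    rw [lexDec_verts S hS, lexDec_verts S hS]
    exact AFac.outer h1 H

theorem Nice.lex {G : SimpleGraph V} {H : SimpleGraph W} {w : ℕ} (hG : Nice G w)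
    (hH : Nice H w) : Nice (lex G H) w := by
  obtain ⟨T, h1, h2, h3⟩ := hG
  obtain ⟨S, g1, g2, g3⟩ := hH
  refine ⟨lexDec S T, lexDec_proper S g2 g1 T h1, ?_, lexDec_all G H w S g2 g3 T h3⟩
  rw [lexDec_verts S g2, h2]
  rfl

/-- the caterpillar -/
def cat (e : ℕ → V) : ℕ → Dec V
  | 0 => Dec.leaf (e 0)
  | m + 1 => Dec.node (cat e m) (Dec.leaf (e (m + 1)))

theorem cat_verts (e : ℕ → V) (m : ℕ) : (cat e m).verts = {v | ∃ i ≤ m, e i = v} := by
  induction m with
  | zero =>
    ext v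
    show v ∈ ({e 0} : Set V) ↔ _
    simp [eq_comm]
  | succ m ih =>
    show (cat e m).verts ∪ {e (m + 1)} = _
    rw [ih]
    ext v
    simp only [Set.mem_union, Set.mem_setOf_eq, Set.mem_singleton_iff]
    constructor
    · rintro (⟨i, hi, rfl⟩ | rfl)
      · exact ⟨i, by omega, rfl⟩
      · exact ⟨m + 1, le_rfl, rfl⟩
    · rintro ⟨i, hi, rfl⟩
      rcases Nat.lt_or_ge i (m + 1) with h | h
      · exact Or.inl ⟨i, by omega, rfl⟩
      · right
        rw [show i = m + 1 by omega]

theorem cat_proper (e : ℕ → V) (m : ℕ) (he : ∀ i ≤ m, ∀ j ≤ m, e i = e j → i = j) :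
    (cat e m).Proper := by
  induction m with
  | zero => trivial
  | succ m ih =>
    refine ⟨?_, ih (fun i hi j hj h => he i (by omega) j (by omega) h), trivial⟩
    rw [cat_verts, Set.disjoint_left]
    rintro v ⟨i, hi, rfl⟩ hv
    have h1 : e i = e (m + 1) := hv
    have := he i (by omega) (m + 1) le_rfl h1
    omega

theorem cat_all (Q : Set V → Prop) (e : ℕ → V) (m : ℕ) (h1 : ∀ i ≤ m, Q {e i})
    (h2 : ∀ i ≤ m, Q {v | ∃ j ≤ i, e j = v}) : (cat e m).AllSets Q := by
  induction m with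
  | zero => exact h1 0 le_rfl
  | succ m ih =>
    refine ⟨?_, ih (fun i hi => h1 i (by omega)) (fun i hi => h2 i (by omega)), h1 _ le_rfl⟩
    have := h2 (m + 1) le_rfl
    rw [← cat_verts e (m + 1)] at this
    exact this

theorem AFac.singleton (G : SimpleGraph V) (w : ℕ) (v : V) : AFac G w {v} := by
  refine ⟨fun _ => 0, fun _ => 0, fun b => if G.Adj v b then (1 : ZMod 2) else 0, ?_⟩
  intro a ha b _
  rw [Set.mem_singleton_iff] at ha
  subst ha
  simp

/-- the graph of a sequence of pairs of vectors -/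
def seqGraph {w n : ℕ} (z : Fin n → E w × E w) : SimpleGraph (Fin n) where
  Adj i j := (i < j ∧ (z i).2 ⬝ᵥ (z j).1 = 1) ∨ (j < i ∧ (z j).2 ⬝ᵥ (z i).1 = 1)
  symm := ⟨by
    rintro i j (h | h)
    · exact Or.inr h
    · exact Or.inl h⟩
  loopless := ⟨by
    rintro i (⟨h, -⟩ | ⟨h, -⟩)
    · exact lt_irrefl _ h
    · exact lt_irrefl _ h⟩

theorem seqGraph_adj {w n : ℕ} (z : Fin n → E w × E w) {i j : Fin n} (h : i < j) :
    (seqGraph z).Adj i j ↔ (z i).2 ⬝ᵥ (z j).1 = 1 := by
  show (_ ∨ _) ↔ _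
  constructor
  · rintro (⟨-, h1⟩ | ⟨h1, -⟩)
    · exact h1
    · exact absurd h1 (not_lt.2 h.le)
  · intro h1
    exact Or.inl ⟨h, h1⟩

theorem zmod2 (x : ZMod 2) (h : x ≠ 1) : x = 0 := by
  revert x
  decide

theorem seqGraph_nice {w n : ℕ} (hn : 0 < n) (z : Fin n → E w × E w) : Nice (seqGraph z) w := by
  set e : ℕ → Fin n := fun i => if h : i < n then ⟨i, h⟩ else ⟨0, hn⟩ with he
  have hev : ∀ i (h : i < n), e i = ⟨i, h⟩ := by
    intro i h
    simp [he, h]
  refine ⟨cat e (n - 1), cat_proper e _ ?_, ?_, cat_all _ e _ (fun i _ => AFac.singleton _ w _) ?_⟩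
  · intro i hi j hj h
    rw [hev i (by omega), hev j (by omega)] at h
    exact Fin.mk.inj_iff.1 h
  · rw [cat_verts]
    ext v
    simp only [Set.mem_setOf_eq, Set.mem_univ, iff_true]
    exact ⟨v.val, by omega, hev v.val v.2⟩
  · intro i hi
    refine ⟨fun a => (z a).2, fun b => (z b).1, fun _ => 0, ?_⟩
    rintro a ⟨j, hj, rfl⟩ b hb
    have hlt : e j < b := by
      rw [hev j (by omega)]
      by_contra hcon
      apply hb
      refine ⟨b.val, ?_, hev b.val b.2⟩
      have h1 : b.val ≤ j := by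
        have := not_lt.1 hcon
        exact this
      omega
    rw [add_zero]
    by_cases h1 : (seqGraph z).Adj (e j) b
    · rw [if_pos h1]
      exact ((seqGraph_adj z hlt).1 h1).symm
    · rw [if_neg h1]
      have h2 : (z (e j)).2 ⬝ᵥ (z b).1 ≠ 1 := fun hh => h1 ((seqGraph_adj z hlt).2 hh)
      exact (zmod2 _ h2).symm

/-- The basic graph. -/
theorem base_graph (w m k : ℕ) (h : Tri w + 1 + k * (m + 1) < k * w) :
    ∃ G : SimpleGraph (Fin (2 ^ m)), G.CliqueFree k ∧ Gᶜ.CliqueFree k ∧ Nice G w := by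
  obtain ⟨z, hz⟩ := exists_seq w m k h
  refine ⟨seqGraph z, ?_, ?_, seqGraph_nice (by positivity) z⟩
  · intro S hS
    refine hz 1 (S.orderEmbOfFin hS.2) (S.orderEmbOfFin hS.2).injective ?_
    intro a b hab
    have hlt : S.orderEmbOfFin hS.2 a < S.orderEmbOfFin hS.2 b :=
      (S.orderEmbOfFin hS.2).strictMono hab
    have hadj := hS.1 (S.orderEmbOfFin_mem hS.2 a) (S.orderEmbOfFin_mem hS.2 b) hlt.ne
    exact (seqGraph_adj z hlt).1 hadj
  · intro S hS
    refine hz 0 (S.orderEmbOfFin hS.2) (S.orderEmbOfFin hS.2).injective ?_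
    intro a b hab
    have hlt : S.orderEmbOfFin hS.2 a < S.orderEmbOfFin hS.2 b :=
      (S.orderEmbOfFin hS.2).strictMono hab
    have hadj := hS.1 (S.orderEmbOfFin_mem hS.2 a) (S.orderEmbOfFin_mem hS.2 b) hlt.ne
    rw [SimpleGraph.compl_adj] at hadj
    exact zmod2 _ (fun hh => hadj.2 ((seqGraph_adj z hlt).2 hh))

/-- Lexicographic powers. -/
theorem rw_power (w m a : ℕ) (h : Tri w + 1 + (a + 1) * (m + 1) < (a + 1) * w) (i : ℕ) :
    ∃ (V : Type) (_ : Fintype V) (G : SimpleGraph V), Fintype.card V = (2 ^ m) ^ i ∧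
      RankWidthLE G (w + 1) ∧ G.CliqueFree (a ^ i + 1) ∧ Gᶜ.CliqueFree (a ^ i + 1) := by
  obtain ⟨G1, g1, g2, g3⟩ := base_graph w m (a + 1) h
  have key : ∃ (V : Type) (_ : Fintype V) (G : SimpleGraph V), Fintype.card V = (2 ^ m) ^ i ∧
      Nice G w ∧ G.CliqueFree (a ^ i + 1) ∧ Gᶜ.CliqueFree (a ^ i + 1) := by
    induction i with
    | zero =>
      have hfree : ∀ H : SimpleGraph Unit, H.CliqueFree (a ^ 0 + 1) := by
        intro H S hS
        have h1 : S.card ≤ 1 := by
          refine (card_le_card (subset_univ S)).trans ?_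
          simp
        rw [hS.2, pow_zero] at h1
        omega
      refine ⟨Unit, inferInstance, ⊥, by simp, ?_, hfree _, hfree _⟩
      exact ⟨Dec.leaf (), trivial, by ext; simp [Dec.verts], AFac.singleton _ w _⟩
    | succ i ih =>
      obtain ⟨V, hV, G, e1, e2, e3, e4⟩ := ih
      refine ⟨V × Fin (2 ^ m), inferInstance, lex G G1, ?_, e2.lex g3, ?_, ?_⟩
      · rw [Fintype.card_prod, e1, Fintype.card_fin, pow_succ]
      · rw [pow_succ]
        exact lex_cliqueFree G G1 e3 g1
      · rw [lex_compl, pow_succ]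
        exact lex_cliqueFree Gᶜ G1ᶜ e4 g2
  obtain ⟨V, hV, G, e1, e2, e3, e4⟩ := key
  exact ⟨V, hV, G, e1, e2.rankWidth, e3, e4⟩

end Pool.Agent.Y422.RW
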