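import Pool.Agent.Y422.RW.Up
import Pool.Agent.Y422.RW.Low
import Pool.Agent.Y422.TW.Asy

/-!
# Exact asymptotics of the diagonal Ramsey numbers of graphs of bounded rank-width
-/

set_option autoImplicit false

namespace Pool.Agent.Y422.RW

open Finset Real Filter Topology Pool.Agent.Y422.TW

theorem RankWidthLE.mono {V : Type*} {G : SimpleGraph V} {w w' : ℕ} (h : w ≤ w')
    (hG : RankWidthLE G w) : RankWidthLE G w' := by
  obtain ⟨T, h1, h2, h3⟩ := hG
  exact ⟨T, h1, h2, Dec.AllSets.imp (fun A hA => hA.trans h) T h3⟩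

/-- the numbers of vertices of the graphs of rank-width at most `w` without clique and independent
set of size `k` -/
def SetRW (w k : ℕ) : Set ℕ :=
  {n : ℕ | ∃ (V : Type) (_ : Fintype V) (G : SimpleGraph V), Fintype.card V = n ∧
    RankWidthLE G w ∧ G.CliqueFree k ∧ Gᶜ.CliqueFree k}

/-- the largest number of vertices of a graph of rank-width at most `w` without clique and
independent set of size `k` -/
noncomputable def NRW (w k : ℕ) : ℕ := sSup (SetRW w k)

theorem SetRW_bdd (w k : ℕ) : BddAbove (SetRW w k) := by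
  obtain ⟨C, _, h⟩ := rw_upper 1 le_rfl
  refine ⟨⌊exp (C * (k : ℝ) ^ ((1 : ℝ) / (1 : ℕ)))⌋₊, ?_⟩
  rintro n ⟨V, hV, G, rfl, h1, h2, h3⟩
  apply Nat.le_floor
  have := h V G w k h1 h2 h3
  simpa using this

theorem rw_up (i : ℕ) : ∃ C : ℝ, 0 < C ∧ ∀ w k : ℕ,
    (NRW w k : ℝ) ≤ (2 ^ (w + 1)) ^ i * exp (C * (k : ℝ) ^ ((1 : ℝ) / ((i + 1 : ℕ) : ℝ))) := by
  obtain ⟨C, hC, h⟩ := rw_upper (i + 1) (by omega)
  refine ⟨C, hC, ?_⟩
  intro w k
  rcases Set.eq_empty_or_nonempty (SetRW w k) with he | hne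
  · have : NRW w k = 0 := by
      unfold NRW
      rw [he]
      exact csSup_empty
    rw [this]
    push_cast
    positivity
  · obtain ⟨V, hV, G, hn, h1, h2, h3⟩ := Nat.sSup_mem hne (SetRW_bdd w k)
    have := h V G w k h1 h2 h3
    rw [hn] at this
    simpa [NRW] using this

theorem rw_low (w m a i k : ℕ) (h : Tri w + 1 + (a + 1) * (m + 1) < (a + 1) * w)
    (hk : a ^ i + 1 ≤ k) : (2 ^ m) ^ i ≤ NRW (w + 1) k := by
  obtain ⟨V, hV, G, g1, g2, g3, g4⟩ := rw_power w m a h i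
  exact le_csSup (SetRW_bdd _ k) ⟨V, hV, G, g1, g2, g3.mono hk, g4.mono hk⟩

/-- The lower bound with real parameters. -/
theorem rw_low_real (i : ℕ) (hi : 1 ≤ i) (w k : ℕ) (hw : 1 ≤ w) (hk : 1 ≤ k) :
    i * (w * log 2) - i * log 2 * ((w : ℝ) ^ 2 / (2 * (k : ℝ) ^ ((1 : ℝ) / (i : ℝ))) + 5) ≤
      log (NRW w k) := by
  set κ : ℝ := (k : ℝ) ^ ((1 : ℝ) / (i : ℝ)) with hκ
  have hiR : (1 : ℝ) ≤ i := by exact_mod_cast hi
  have hkR : (1 : ℝ) ≤ k := by exact_mod_cast hk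
  have hwR : (1 : ℝ) ≤ w := by exact_mod_cast hw
  have hκ1 : 1 ≤ κ := one_le_rpow hkR (by positivity)
  have hlog2 : 0 < log 2 := log_pos (by norm_num)
  obtain ⟨w0, rfl⟩ : ∃ w0, w = w0 + 1 := ⟨w - 1, by omega⟩
  set K : ℕ := ⌈κ⌉₊ with hK
  have hK1 : 1 ≤ K := Nat.one_le_ceil_iff.2 (by linarith)
  obtain ⟨a, ha⟩ : ∃ a, K = a + 1 := ⟨K - 1, by omega⟩
  have hKκ : κ ≤ K := Nat.le_ceil κ
  have haκ : (a : ℝ) < κ := by
    rw [← Nat.lt_ceil, ← hK]
    omega
  have hai : a ^ i + 1 ≤ k := by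
    have h1 : (a : ℝ) ^ i < κ ^ i := pow_lt_pow_left₀ haκ (Nat.cast_nonneg a) (by omega)
    have h2 : κ ^ i = k := by
      rw [hκ, ← rpow_natCast, ← rpow_mul (by linarith), one_div, inv_mul_cancel₀ (by positivity),
        rpow_one]
    rw [h2] at h1
    exact_mod_cast h1
  set r : ℕ := (Tri w0 + 2) / K + 1 with hr
  have hr1 : Tri w0 + 1 < K * r := by
    have h1 := Nat.div_add_mod (Tri w0 + 2) K
    have h2 := Nat.mod_lt (Tri w0 + 2) (show K > 0 by omega)
    rw [hr, mul_add, mul_one]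
    omega
  have hrR : (r : ℝ) ≤ ((w0 : ℝ) + 1) ^ 2 / (2 * κ) + 3 := by
    have h1 : (((Tri w0 + 2) / K : ℕ) : ℝ) ≤ ((Tri w0 + 2 : ℕ) : ℝ) / K := Nat.cast_div_le
    have h2 : ((Tri w0 + 2 : ℕ) : ℝ) / K ≤ ((Tri w0 + 2 : ℕ) : ℝ) / κ :=
      div_le_div_of_nonneg_left (by positivity) (by linarith) hKκ
    have h3 : ((Tri w0 : ℕ) : ℝ) ≤ ((w0 : ℝ) + 1) ^ 2 / 2 := by
      have h4 := two_Tri w0
      have h5 : (2 : ℝ) * (Tri w0 : ℕ) = w0 * (w0 + 1) := by exact_mod_cast h4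
      nlinarith [Nat.cast_nonneg (α := ℝ) w0]
    have h6 : ((Tri w0 + 2 : ℕ) : ℝ) / κ ≤ ((w0 : ℝ) + 1) ^ 2 / (2 * κ) + 2 := by
      push_cast
      rw [add_div]
      have h7 : (Tri w0 : ℝ) / κ ≤ ((w0 : ℝ) + 1) ^ 2 / (2 * κ) := by
        rw [← div_div]
        exact div_le_div_of_nonneg_right h3 (by linarith)
      have h8 : (2 : ℝ) / κ ≤ 2 := div_le_self (by norm_num) hκ1
      linarith
    rw [hr]
    push_cast
    linarith
  have hmain : (i : ℝ) * (((w0 : ℝ) - 1 - r) * log 2) ≤ log (NRW (w0 + 1) k) := by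
    rcases Nat.lt_or_ge w0 (r + 1) with hlt | hge
    · have h1 : (w0 : ℝ) < r + 1 := by exact_mod_cast hlt
      have h2 : 0 ≤ log (NRW (w0 + 1) k : ℝ) := log_natCast_nonneg _
      have h3 : ((w0 : ℝ) - 1 - r) * log 2 ≤ 0 := by
        apply mul_nonpos_of_nonpos_of_nonneg (by linarith) hlog2.le
      nlinarith
    · obtain ⟨m, hm⟩ : ∃ m, w0 = m + 1 + r := ⟨w0 - 1 - r, by omega⟩
      have h1 : Tri w0 + 1 + (a + 1) * (m + 1) < (a + 1) * w0 := by
        rw [← ha, show K * w0 = K * (m + 1) + K * r by rw [hm]; ring]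
        omega
      have h2 := rw_low w0 m a i k h1 hai
      have h3 : ((2 : ℝ) ^ m) ^ i ≤ NRW (w0 + 1) k := by exact_mod_cast h2
      have h4 := log_le_log (by positivity) h3
      rw [log_pow, log_pow] at h4
      have h5 : (w0 : ℝ) - 1 - r = m := by
        rw [hm]
        push_cast
        ring
      rw [h5]
      exact h4
  refine le_trans ?_ hmain
  have h9 : (i : ℝ) * log 2 * r ≤ i * log 2 * (((w0 : ℝ) + 1) ^ 2 / (2 * κ) + 3) :=
    mul_le_mul_of_nonneg_left hrR (by positivity)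
  push_cast
  nlinarith

/-- **Exact asymptotics for rank-width.** -/
theorem rw_limit (i : ℕ) (hi : 1 ≤ i) (w : ℕ → ℕ)
    (h1 : Tendsto (fun k : ℕ => (w k : ℝ) / (k : ℝ) ^ ((1 : ℝ) / ((i + 1 : ℕ) : ℝ))) atTop atTop)
    (h2 : Tendsto (fun k : ℕ => (w k : ℝ) / (k : ℝ) ^ ((1 : ℝ) / (i : ℝ))) atTop (𝓝 0)) :
    Tendsto (fun k : ℕ => logb 2 (NRW (w k) k) / w k) atTop (𝓝 i) := by
  obtain ⟨C, hC, hup⟩ := rw_up i
  have hlog2 : 0 < log 2 := log_pos (by norm_num)
  have hpos : ∀ᶠ k : ℕ in atTop, 1 ≤ w k := by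
    filter_upwards [h1.eventually_gt_atTop 0] with k hk
    by_contra hcon
    have : w k = 0 := by omega
    rw [this] at hk
    simp at hk
  have hw : Tendsto (fun k : ℕ => (w k : ℝ)) atTop atTop := by
    apply tendsto_atTop_mono' _ _ h1
    filter_upwards [eventually_ge_atTop 1] with k hk
    exact div_le_self (Nat.cast_nonneg _) (one_le_rpow (by exact_mod_cast hk) (by positivity))
  have hlim : Tendsto (fun k : ℕ => log (NRW (w k) k) / (w k * log 2)) atTop (𝓝 i) := by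
    refine limit_aux i (fun k => w k * log 2) (fun k => log (NRW (w k) k)) C (i * log 2)
      (fun k => i * log 2 * ((w k : ℝ) ^ 2 / (2 * (k : ℝ) ^ ((1 : ℝ) / (i : ℝ))) + 5)) ?_ ?_ ?_ ?_
    · have := h1.atTop_mul_const hlog2
      refine this.congr ?_
      intro k
      ring
    · filter_upwards [hpos, h1.eventually_gt_atTop 0] with k hk _
      by_cases hN0 : NRW (w k) k = 0
      · rw [hN0]
        simp only [Nat.cast_zero, log_zero]
        positivity
      have hN : (0 : ℝ) < NRW (w k) k := by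
        have : 0 < NRW (w k) k := Nat.pos_of_ne_zero hN0
        exact_mod_cast this
      have h4 := log_le_log hN (hup (w k) k)
      rw [log_mul (by positivity) (exp_pos _).ne', log_exp, log_pow, log_pow] at h4
      push_cast at h4 ⊢
      linarith
    · have h3 : Tendsto (fun k : ℕ => (i : ℝ) * ((w k : ℝ) / (k : ℝ) ^ ((1 : ℝ) / (i : ℝ)) * (1 / 2) +
          5 / (w k : ℝ))) atTop (𝓝 0) := by
        have := ((h2.mul_const (1 / 2)).add (hw.const_div_atTop 5)).const_mul (i : ℝ)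
        simpa using this
      refine h3.congr' ?_
      filter_upwards [hpos, eventually_ge_atTop 1] with k hk hk1
      have hwk : (0 : ℝ) < w k := by exact_mod_cast hk
      have hkk : (0 : ℝ) < (k : ℝ) ^ ((1 : ℝ) / (i : ℝ)) := by
        have : (0 : ℝ) < k := by exact_mod_cast hk1
        positivity
      field_simp
    · filter_upwards [hpos, eventually_ge_atTop 1] with k hk hk1
      have h4 := rw_low_real i hi (w k) k hk hk1
      have h5 : 0 ≤ (i : ℝ) * log 2 := by positivity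
      linarith
  refine hlim.congr ?_
  intro k
  rw [logb, div_div, mul_comm (w k : ℝ)]

/-- **The two-sided estimate.** -/
theorem rw_uniform (i : ℕ) (hi : 1 ≤ i) : ∃ C : ℝ, 0 < C ∧ ∀ w k : ℕ, 1 ≤ w → 1 ≤ k →
    i * (w - (w : ℝ) ^ 2 / (2 * (k : ℝ) ^ ((1 : ℝ) / (i : ℝ))) - 5) ≤ logb 2 (NRW w k) ∧
    logb 2 (NRW w k) ≤ i * (w + 1) + C * (k : ℝ) ^ ((1 : ℝ) / ((i + 1 : ℕ) : ℝ)) := by
  obtain ⟨C, hC, hup⟩ := rw_up i
  have hlog2 : 0 < log 2 := log_pos (by norm_num)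
  refine ⟨C / log 2, by positivity, ?_⟩
  intro w k hw hk
  constructor
  · have h := rw_low_real i hi w k hw hk
    rw [logb, le_div_iff₀ hlog2]
    refine le_trans (le_of_eq ?_) h
    ring
  · rw [logb, div_le_iff₀ hlog2]
    by_cases hN0 : NRW w k = 0
    · rw [hN0]
      simp only [Nat.cast_zero, log_zero]
      positivity
    have hN : (0 : ℝ) < NRW w k := by
      have : 0 < NRW w k := Nat.pos_of_ne_zero hN0
      exact_mod_cast this
    have h4 := log_le_log hN (hup w k)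
    rw [log_mul (by positivity) (exp_pos _).ne', log_exp, log_pow, log_pow] at h4
    refine h4.trans (le_of_eq ?_)
    push_cast
    field_simp

theorem rw_two (w k : ℕ) (hw : 1 ≤ w) (hk : 3 ≤ k) : 2 ≤ NRW w k := by
  apply le_csSup (SetRW_bdd w k)
  set G : SimpleGraph (Fin 2) := seqGraph (w := 0) (fun _ => (0, 0)) with hG
  have hn : Nice G 0 := seqGraph_nice (by norm_num) _
  refine ⟨Fin 2, inferInstance, G, by simp, hn.rankWidth.mono (by omega), ?_, ?_⟩
  · exact SimpleGraph.cliqueFree_of_card_lt (by rw [Fintype.card_fin]; omega)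
  · exact SimpleGraph.cliqueFree_of_card_lt (by rw [Fintype.card_fin]; omega)

/-- **Order of magnitude for `k ^ ε ≤ w ≤ k`.** -/
theorem rw_order (ε : ℝ) (hε : 0 < ε) : ∃ c C : ℝ, 0 < c ∧ 0 < C ∧ ∀ w k : ℕ, 3 ≤ k →
    (k : ℝ) ^ ε ≤ w → w ≤ k →
    c * w ≤ logb 2 (NRW w k) ∧ logb 2 (NRW w k) ≤ C * w := by
  set i : ℕ := ⌈1 / ε⌉₊ with hi
  have hiR : 1 / ε ≤ i := Nat.le_ceil _
  obtain ⟨C, hC, hup⟩ := rw_up i
  have hlog2 : 0 < log 2 := log_pos (by norm_num)
  refine ⟨1 / 16, (2 * i * log 2 + C) / log 2, by norm_num, by positivity, ?_⟩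
  intro w k hk h1 h2
  have hkR : (3 : ℝ) ≤ k := by exact_mod_cast hk
  have hke : (1 : ℝ) ≤ (k : ℝ) ^ ε := one_le_rpow (by linarith) hε.le
  have hwR : (1 : ℝ) ≤ w := hke.trans h1
  have hw1 : 1 ≤ w := by exact_mod_cast hwR
  have hN2 := rw_two w k hw1 hk
  have hN : (0 : ℝ) < NRW w k := by
    have : 0 < NRW w k := by omega
    exact_mod_cast this
  constructor
  · rw [logb, le_div_iff₀ hlog2]
    rcases Nat.lt_or_ge w 16 with hlt | hge
    · have h3 : log 2 ≤ log (NRW w k) := log_le_log (by norm_num) (by exact_mod_cast hN2)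
      have h4 : (w : ℝ) ≤ 16 := by exact_mod_cast hlt.le
      nlinarith
    · obtain ⟨w0, rfl⟩ : ∃ w0, w = w0 + 1 := ⟨w - 1, by omega⟩
      obtain ⟨a, rfl⟩ : ∃ a, k = a + 1 := ⟨k - 1, by omega⟩
      set m : ℕ := w0 / 2 - 2 with hm
      have hm2 : 2 * (m + 2) ≤ w0 := by omega
      have hcond : Tri w0 + 1 + (a + 1) * (m + 1) < (a + 1) * w0 := by
        have h3 := two_Tri w0
        have h4 : w0 * (w0 + 1) ≤ w0 * (a + 1) := Nat.mul_le_mul_left _ h2
        have h5 : (a + 1) * (2 * (m + 2)) ≤ (a + 1) * w0 := Nat.mul_le_mul_left _ hm2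
        have h6 : (a + 1) * (2 * (m + 2)) = 2 * ((a + 1) * (m + 1)) + 2 * (a + 1) := by ring
        have h7 : w0 * (a + 1) = (a + 1) * w0 := mul_comm _ _
        omega
      have h3 := rw_low w0 m a 1 (a + 1) hcond (by rw [pow_one])
      rw [pow_one] at h3
      have h4 : ((2 : ℝ) ^ m) ≤ NRW (w0 + 1) (a + 1) := by exact_mod_cast h3
      have h5 := log_le_log (by positivity) h4
      rw [log_pow] at h5
      have h6 : ((w0 + 1 : ℕ) : ℝ) ≤ 16 * m := by
        have : w0 + 1 ≤ 16 * m := by omega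
        exact_mod_cast this
      nlinarith
  · rw [logb, div_mul_eq_mul_div]
    apply div_le_div_of_nonneg_right _ hlog2.le
    have h4 := log_le_log hN (hup w k)
    rw [log_mul (by positivity) (exp_pos _).ne', log_exp, log_pow, log_pow] at h4
    have h6 : (k : ℝ) ^ ((1 : ℝ) / ((i + 1 : ℕ) : ℝ)) ≤ w := by
      refine le_trans (rpow_le_rpow_of_exponent_le (by linarith) ?_) h1
      rw [div_le_iff₀ (by positivity)]
      rw [div_le_iff₀ hε] at hiR
      push_cast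
      nlinarith
    have h8 := mul_le_mul_of_nonneg_left h6 hC.le
    have h9 : (i : ℝ) * ((w + 1 : ℕ) * log 2) ≤ 2 * i * log 2 * w := by
      push_cast
      have : 0 ≤ (i : ℝ) * log 2 := by positivity
      nlinarith
    nlinarith

end Pool.Agent.Y422.RW
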