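import Pool.Agent.Y422.RW.Defs
import Pool.Agent.Y422.TW.Upper

/-!
# The upper bound for rank-width
-/

set_option autoImplicit false

namespace Pool.Agent.Y422.RW

open Finset Real Classical Pool.Agent.Y422.TW

variable {V : Type*}

/-- Few types: a set on one side of a cut of rank at most `w` has a large part of vertices with the
same neighbours on the other side. -/
theorem cut_types [Finite V] (G : SimpleGraph V) (w : ℕ) (A : Set V) (h : cutRank G A ≤ w)
    (S : Finset V) (hS : ∀ x ∈ S, x ∈ A) :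
    ∃ S' ⊆ S, S.card ≤ 2 ^ w * S'.card ∧ ∀ x ∈ S', ∀ y ∈ S', ∀ b ∉ A, (G.Adj x b ↔ G.Adj y b) := by
  rcases S.eq_empty_or_nonempty with rfl | hne
  · exact ⟨∅, subset_refl _, by simp, by simp⟩
  set row : V → ((Aᶜ : Set V) → ZMod 2) := fun a b => if G.Adj a b then (1 : ZMod 2) else 0
    with hrow
  set M := Submodule.span (ZMod 2)
    (Set.range (fun (a : A) (b : (Aᶜ : Set V)) => if G.Adj a b then (1 : ZMod 2) else 0)) with hM
  have hfin : Finite M := inferInstance
  have hcard : Nat.card M ≤ 2 ^ w := by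
    rw [Module.natCard_eq_pow_finrank (K := ZMod 2) (V := M), Nat.card_zmod]
    exact Nat.pow_le_pow_right (by norm_num) h
  have himg : (S.image row).card ≤ 2 ^ w := by
    refine le_trans ?_ hcard
    have hsub : ((S.image row : Finset _) : Set _) ⊆ (M : Set ((Aᶜ : Set V) → ZMod 2)) := by
      intro f hf
      obtain ⟨a, ha, rfl⟩ := mem_image.1 (mem_coe.1 hf)
      exact Submodule.subset_span ⟨⟨a, hS a ha⟩, rfl⟩
    have h1 := Set.ncard_le_ncard hsub (Set.toFinite _)
    rw [Set.ncard_coe_finset] at h1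
    exact h1
  obtain ⟨f0, hf0, hmax⟩ := Finset.exists_max_image (S.image row)
    (fun f => (S.filter (fun x => row x = f)).card) (hne.image row)
  refine ⟨S.filter (fun x => row x = f0), filter_subset _ _, ?_, ?_⟩
  · have h1 := Finset.card_le_mul_card_image (f := row) S
      (S.filter (fun x => row x = f0)).card (fun a ha => hmax a ha)
    calc S.card ≤ _ := h1
      _ ≤ (S.filter (fun x => row x = f0)).card * 2 ^ w := Nat.mul_le_mul_left _ himg
      _ = _ := mul_comm _ _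
  · intro x hx y hy b hb
    have e1 := (mem_filter.1 hx).2
    have e2 := (mem_filter.1 hy).2
    have e3 : row x ⟨b, hb⟩ = row y ⟨b, hb⟩ := by rw [e1, e2]
    simp only [hrow] at e3
    by_cases h1 : G.Adj x b <;> by_cases h2 : G.Adj y b <;> simp_all

/-- The part of a finite set inside `A`. -/
noncomputable def cap (U : Finset V) (A : Set V) : Finset V := U.filter (fun u => u ∈ A)

theorem mem_cap {U : Finset V} {A : Set V} {u : V} : u ∈ cap U A ↔ u ∈ U ∧ u ∈ A := by
  rw [cap, mem_filter]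

/-- Descent in the tree. -/
theorem descent (Q : Set V → Prop) (s : ℝ) (hs : 1 ≤ s) (U : Finset V) (T : Dec V)
    (hT : T.AllSets Q) (h : s ≤ (cap U T.verts).card) :
    ∃ A : Set V, Q A ∧ s ≤ (cap U A).card ∧
      ((cap U A).card : ℝ) ≤ 2 * s := by
  induction T with
  | leaf v =>
    refine ⟨{v}, hT, h, ?_⟩
    have h1 : (cap U ({v} : Set V)).card ≤ 1 := by
      rw [card_le_one]
      intro a ha b hb
      have e1 := (mem_cap.1 ha).2
      have e2 := (mem_cap.1 hb).2
      rw [Set.mem_singleton_iff] at e1 e2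
      rw [e1, e2]
    have h2 : ((cap U ({v} : Set V)).card : ℝ) ≤ 1 := by exact_mod_cast h1
    linarith
  | node l r ihl ihr =>
    obtain ⟨h1, h2, h3⟩ := hT
    by_cases hl : s ≤ (cap U l.verts).card
    · exact ihl h2 hl
    by_cases hr : s ≤ (cap U r.verts).card
    · exact ihr h3 hr
    refine ⟨l.verts ∪ r.verts, h1, h, ?_⟩
    push Not at hl hr
    have h4 : (cap U (l.verts ∪ r.verts)).card ≤
        (cap U l.verts).card + (cap U r.verts).card := by
      refine (card_le_card ?_).trans (card_union_le _ _)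
      intro u hu
      obtain ⟨hu1, hu2⟩ := mem_cap.1 hu
      rcases hu2 with hu2 | hu2
      · exact mem_union_left _ (mem_cap.2 ⟨hu1, hu2⟩)
      · exact mem_union_right _ (mem_cap.2 ⟨hu1, hu2⟩)
    have h5 : ((cap U (l.verts ∪ r.verts)).card : ℝ) ≤
        (cap U l.verts).card + (cap U r.verts).card := by
      exact_mod_cast h4
    linarith

theorem rw_pair [Finite V] (G : SimpleGraph V) (w : ℕ) (h : RankWidthLE G w) (s : ℝ)
    (hs : 1 ≤ s) : PairProp G s (2 ^ (w + 1) * s) := by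
  intro U hU
  have h2w : (1 : ℝ) ≤ 2 ^ w := one_le_pow₀ (by norm_num)
  by_cases hbig : (U.card : ℝ) ≤ 2 ^ (w + 1) * s
  · exact ⟨U, ∅, ∅, subset_refl _, empty_subset _, empty_subset _, hU, by simp, by simp,
      by simpa using hbig⟩
  push Not at hbig
  obtain ⟨T, hT1, hT2, hT3⟩ := h
  have e0 : (2 : ℝ) ^ (w + 1) * s = 2 * (2 ^ w * s) := by ring
  obtain ⟨A, hA, hA1, hA2⟩ := descent (fun A => cutRank G A ≤ w) (2 ^ w * s) (by nlinarith) U T hT3
    (by
      rw [hT2]
      have : cap U (Set.univ : Set V) = U := by simp [cap]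
      rw [this]
      nlinarith)
  obtain ⟨S', hS1, hS2, hS3⟩ := cut_types G w A hA (cap U A)
    (fun x hx => (mem_cap.1 hx).2)
  have hS2' : ((cap U A).card : ℝ) ≤ 2 ^ w * S'.card := by exact_mod_cast hS2
  have hsS : s ≤ S'.card := by
    have : 2 ^ w * s ≤ 2 ^ w * (S'.card : ℝ) := hA1.trans hS2'
    exact le_of_mul_le_mul_left this (by positivity)
  have hne : S'.Nonempty := by
    rw [← card_pos]
    have : (0 : ℝ) < S'.card := by linarith
    exact_mod_cast this
  obtain ⟨a0, ha0⟩ := hne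
  set R := U.filter (fun u => u ∉ A ∧ G.Adj a0 u) with hR
  set B := U.filter (fun u => u ∉ A ∧ ¬ G.Adj a0 u) with hB
  refine ⟨S', R, B, fun x hx => (mem_cap.1 (hS1 hx)).1, filter_subset _ _, filter_subset _ _, hsS,
    ?_, ?_, ?_⟩
  · intro a ha r hr
    obtain ⟨-, hr1, hr2⟩ := mem_filter.1 hr
    exact (hS3 a ha a0 ha0 r hr1).2 hr2
  · intro a ha b hb
    obtain ⟨-, hb1, hb2⟩ := mem_filter.1 hb
    rw [SimpleGraph.compl_adj]
    refine ⟨?_, fun hh => hb2 ((hS3 a ha a0 ha0 b hb1).1 hh)⟩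
    rintro rfl
    exact hb1 (mem_cap.1 (hS1 ha)).2
  · have hsub : U ⊆ (R ∪ B) ∪ cap U A := by
      intro u hu
      by_cases hA : u ∈ A
      · exact mem_union_right _ (mem_cap.2 ⟨hu, hA⟩)
      · refine mem_union_left _ ?_
        by_cases hadj : G.Adj a0 u
        · exact mem_union_left _ (mem_filter.2 ⟨hu, hA, hadj⟩)
        · exact mem_union_right _ (mem_filter.2 ⟨hu, hA, hadj⟩)
    have h1 := (card_le_card hsub).trans ((card_union_le _ _).trans
      (Nat.add_le_add_right (card_union_le _ _) _))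
    have h2 : (U.card : ℝ) ≤ R.card + B.card + (cap U A).card := by
      exact_mod_cast h1
    rw [e0]
    linarith

theorem levels' (j : ℕ) : ∃ c : ℝ, 0 < c ∧ ∀ (V : Type) [Fintype V] (G : SimpleGraph V) (κ : ℝ),
    1 ≤ κ → (∀ s : ℝ, 1 ≤ s → PairProp G s (κ * s)) → ∀ Y : ℝ, 0 < Y → ∀ U : Finset V,
      κ ^ j * exp ((j + 1) * Y) ≤ U.card → Lvl G (j + 1) c Y U := by
  induction j with
  | zero =>
    refine ⟨1 / 4, by norm_num, ?_⟩
    intro V _ G κ _ _ Y _ U hU
    apply base G U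
    simpa using hU
  | succ j ih =>
    obtain ⟨c, hc, ih⟩ := ih
    obtain ⟨K, hK, hKan⟩ := analytic (j + 1) (by omega) c hc
    refine ⟨1 / (2 * K), by positivity, ?_⟩
    intro V _ G κ hκ hpp Y hY U hU
    set s : ℝ := κ ^ j * exp ((j + 1) * Y) with hs
    have hs1 : 1 ≤ s := by
      rw [hs]
      have h1 : (1 : ℝ) ≤ κ ^ j := one_le_pow₀ hκ
      have h2 : (1 : ℝ) ≤ exp ((j + 1) * Y) := one_le_exp (by positivity)
      nlinarith
    refine step G (s := s) (D := κ * s) hs1 (by nlinarith) hY hK hKan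
      (hpp s hs1) (fun A hA => ih V G κ hκ hpp Y hY A hA) U ?_
    have e : κ * s * exp Y = κ ^ (j + 1) * exp (((j + 1 : ℕ) + 1) * Y) := by
      rw [hs]
      have : exp (((j + 1 : ℕ) + 1) * Y) = exp ((j + 1) * Y) * exp Y := by
        rw [← exp_add]
        congr 1
        push_cast
        ring
      rw [this]
      ring
    rw [e]
    exact hU

/-- The upper bound. -/
theorem upper' (j : ℕ) (hj : 1 ≤ j) : ∃ C : ℝ, 0 < C ∧
    ∀ (V : Type) [Fintype V] (G : SimpleGraph V) (κ : ℝ) (k : ℕ), 1 ≤ κ →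
      (∀ s : ℝ, 1 ≤ s → PairProp G s (κ * s)) → G.CliqueFree k → Gᶜ.CliqueFree k →
      (Fintype.card V : ℝ) ≤ κ ^ (j - 1) * exp (C * (k : ℝ) ^ ((1 : ℝ) / j)) := by
  obtain ⟨i, rfl⟩ : ∃ i, j = i + 1 := ⟨j - 1, by omega⟩
  obtain ⟨c, hc, h⟩ := levels' i
  refine ⟨((i : ℝ) + 1) * (2 / c) ^ ((1 : ℝ) / (i + 1 : ℕ)), by positivity, ?_⟩
  intro V _ G κ k hκ hpp h1 h2
  rcases Nat.eq_zero_or_pos k with rfl | hk
  · exact absurd h1 (by simp)
  by_contra hcon
  push Not at hcon
  have hk' : (0 : ℝ) < k := by exact_mod_cast hk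
  set Y : ℝ := (2 / c * k) ^ ((1 : ℝ) / (i + 1 : ℕ)) with hY
  have hYpos : 0 < Y := by rw [hY]; positivity
  have hYpow : Y ^ (i + 1) = 2 / c * k := by
    rw [hY, ← rpow_natCast, ← rpow_mul (by positivity), one_div, inv_mul_cancel₀ (by positivity),
      rpow_one]
  have e : ((i : ℝ) + 1) * (2 / c) ^ ((1 : ℝ) / (i + 1 : ℕ)) * (k : ℝ) ^ ((1 : ℝ) / (i + 1 : ℕ)) =
      (i + 1) * Y := by
    rw [hY, mul_rpow (by positivity) (by positivity)]
    ring
  rw [e] at hcon
  have h3 := (h V G κ hκ hpp Y hYpos Finset.univ (by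
    rw [card_univ]
    simpa using hcon.le) 1 le_rfl).1
  rw [hYpow, one_pow, one_mul] at h3
  have h4 : (TW.w G Finset.univ : ℝ) + 1 ≤ k := by exact_mod_cast w_lt G h1 Finset.univ
  have h5 : (TW.w Gᶜ Finset.univ : ℝ) + 1 ≤ k := by exact_mod_cast w_lt Gᶜ h2 Finset.univ
  have h6 : exp (-1) ≤ 1 := exp_le_one_iff.2 (by norm_num)
  have h7 : exp (-1) * TW.w Gᶜ Finset.univ ≤ TW.w Gᶜ Finset.univ := by
    have : (0 : ℝ) ≤ TW.w Gᶜ Finset.univ := Nat.cast_nonneg _
    nlinarith
  have h8 : c * (2 / c * k) = 2 * k := by field_simp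
  linarith

/-- The upper bound for rank-width. -/
theorem rw_upper (j : ℕ) (hj : 1 ≤ j) : ∃ C : ℝ, 0 < C ∧
    ∀ (V : Type) [Fintype V] (G : SimpleGraph V) (w k : ℕ),
      RankWidthLE G w → G.CliqueFree k → Gᶜ.CliqueFree k →
      (Fintype.card V : ℝ) ≤ (2 ^ (w + 1)) ^ (j - 1) * exp (C * (k : ℝ) ^ ((1 : ℝ) / j)) := by
  obtain ⟨C, hC, h⟩ := upper' j hj
  refine ⟨C, hC, ?_⟩
  intro V _ G w k hw h1 h2
  exact h V G (2 ^ (w + 1)) k (one_le_pow₀ (by norm_num)) (fun s hs => rw_pair G w hw s hs) h1 h2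

end Pool.Agent.Y422.RW
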